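import Mathlib
import Pool.Agent.H42.Hull.Gap

open Pool.Agent.Helper17 Pool.Agent.Helper42 Pool.Agent.H42.Hull

namespace Pool.Agent.Results.MP_ec5dc5_gt.FrameCriterion

/-- The gap criterion.  Let `n = m + k` and let `c` be a class in `π_j(Symp_ct(ℝ^{2n}))`.  If `c` is a
`k`-fold suspension, then for each `ε > 0` it has a representative such that the `2k × 2k` block
(first `k` pairs of coordinates) of all its derivatives is `ε`-close to the identity, and `c` is
trivial if `m = 0` or `π_{j+2k}(Symp_ct(ℝ^{2m})) = 0`.  If `c` is not a `k`-fold suspension, then for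
each representative `φ` and all linear symplectic maps `S, S'` the closed convex hull of all numbers
`⟨A u, u⟩`, where `u` is a unit vector of `ℂ^k` and `A` the complex linear part of the block of
`S' (Dφ_t) S` at some point, contains the closed unit disc. -/
theorem result (m k j : ℕ) (c : PiG j (m + k)) :
    (IsKSusp m k j c →
      (∀ ε : ℝ, 0 < ε → ∃ φ : LoopG j (m + k), φ.cls = c ∧
        ∀ t p u, ‖fstPt m k (dAt (φ.at t) p (incPt m k u)) - u‖ ≤ ε * ‖u‖) ∧
      ((m = 0 ∨ ∀ c' : PiG (j + 2 * k) m, c' = PiG.triv (j + 2 * k) m) →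
        c = PiG.triv j (m + k))) ∧
    (¬ IsKSusp m k j c → ∀ φ : LoopG j (m + k), φ.cls = c → ∀ S S' : LinSymp (m + k),
      Metric.closedBall (0 : ℂ) 1 ⊆ hull m k j S S' φ) := by
  obtain ⟨h1, h2, h3⟩ := gap c
  exact ⟨fun h => ⟨h1 h, h3 h⟩, h2⟩

end Pool.Agent.Results.MP_ec5dc5_gt.FrameCriterion
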